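import Pool.Agent.Results.MP_a12702_lc.MagidorMalitz
import Pool.Agent.Run7.h383.CQI.Main

/-!
# Quasiminimality of the complex numbers with category quantifiers and quantifiers modulo ideals

The starting results `GenericQuantifiers` and `MagidorMalitz` show that all sets of complex numbers
which are obtained from zero sets of entire functions by countable Boolean combinations, preimages
under entire maps, guarded quantifiers, uncountable counting quantifiers (with homogeneous sets), and
integrals over parameter spaces are countable or cocountable.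

Here we add all QUANTIFIERS OVER STANDARD BOREL SPACES WHICH ARE INVARIANT MODULO A NARROW σ-IDEAL.
A σ-ideal `J` of subsets of a standard Borel space `Y` is called narrow if every Borel function
`Y → ℂ` has only countably many fibres outside of `J`. Every σ-ideal with the countable chain condition
is narrow, in particular the ideal of meagre sets of a Polish space (this gives the CATEGORY
QUANTIFIERS 'for nonmeagre many `y`', over spaces of arbitrarily many unknowns, or of entire
functions) and the ideal of null sets of an s-finite measure.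

Let `φ(s, y)` be a Borel function of `s ∈ ℂ^m` and `y ∈ Y` with values in a countably separated
measurable space `Z`, such that for every fixed `y` the preimages of the measurable sets under
`φ(·, y)` are in the family. Let `P` be a property of functions `Y → Z` which does not change if a
function is changed on a set of `J`. The new closure condition is that the set of all `s` such that
`φ(s, ·)` has the property `P` is in the family, if it is a Borel set. The Borel condition is
automatic for the category quantifiers (part 4) and it is not needed for the last quantifier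
(part 3). Part (5) shows that narrow σ-ideals cannot be replaced by more general σ-ideals: a σ-ideal
`J` on `Y` is narrow if and only if for all Borel subsets `X` of `ℂ × Y` whose sections `X^y` are
countable or cocountable the set of all `s` with `X_s ∉ J` is countable or cocountable.

Proof. The trace of `φ(·, y)` on an analytic curve is constant off a countable set. By the theorem of
Lusin and Novikov, the exceptional Borel subset of `Y × ℂ` is a countable union of Borel graphs
of partial functions on `Y`. Since `J` is narrow, the sections of the exceptional set at all but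
countably many points `t` of the curve are in `J` (`Run7.h383.CQI.Narrow.fubini`). Hence all functions
`φ(γ(t), ·)` are equal modulo `J`, for `t` outside of one countable set
(`Run7.h383.CQI.Narrow.const_mod`).
-/

set_option autoImplicit false

namespace Pool.Agent.Results.MP_a12702_lc.NarrowIdealQuantifiers

open Set Function MeasureTheory Pool.Agent.TH735.QM
open Run7.h383.CQI (SigmaIdeal Narrow)

/-- Closure conditions on families `𝒟 m` of subsets of `ℂ^m`: those of the starting result
`MagidorMalitz` (which include those of `GenericQuantifiers`) and a further one. -/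
structure ClosedNQ (𝒟 : (m : ℕ) → Set (Set (Fin m → ℂ))) : Prop extends
    MagidorMalitz.ClosedMM 𝒟 where
  /-- the quantifiers which are invariant modulo a narrow σ-ideal `J` of subsets of a standard Borel
  space `Y` -/
  quantifier : ∀ (m : ℕ) (Y Z : Type) [MeasurableSpace Y] [StandardBorelSpace Y]
    [MeasurableSpace Z] [MeasurableSpace.CountablySeparated Z] (J : Set (Set Y)), Narrow J →
    ∀ φ : (Fin m → ℂ) → Y → Z, Measurable (fun p : (Fin m → ℂ) × Y => φ p.1 p.2) →
    (∀ (y : Y) (B : Set Z), MeasurableSet B → {s | φ s y ∈ B} ∈ 𝒟 m) →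
    ∀ P : Set (Y → Z), (∀ f g : Y → Z, f ∈ P → {y | f y ≠ g y} ∈ J → g ∈ P) →
    MeasurableSet {s | φ s ∈ P} → {s | φ s ∈ P} ∈ 𝒟 m

/-- the set `X` is in the least closed family -/
def InLeast (m : ℕ) (X : Set (Fin m → ℂ)) : Prop :=
  ∀ 𝒟 : (m : ℕ) → Set (Set (Fin m → ℂ)), ClosedNQ 𝒟 → X ∈ 𝒟 m

theorem closed_BC : ClosedNQ (fun m => {X | CQ m X ∧ MeasurableSet X}) :=
  { MagidorMalitz.closed_BC with
    quantifier := fun _ _ _ _ _ _ _ _ hJ _ hφ h _ hP hm =>
      ⟨hJ.quant hφ (fun y B hB => (h y B hB).1) hP, hm⟩ }

theorem bool_sections {𝒟 : (m : ℕ) → Set (Set (Fin m → ℂ))} (h𝒟 : ClosedNQ 𝒟) {m : ℕ}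
    {A : Set (Fin m → ℂ)} (hA : A ∈ 𝒟 m) (f : (Fin m → ℂ) → Bool) (hf : ∀ s, f s = true ↔ s ∈ A)
    (B : Set Bool) : {s | f s ∈ B} ∈ 𝒟 m := by
  classical
  have hc : Aᶜ ∈ 𝒟 m := h𝒟.compl m A hA
  have hu : (univ : Set (Fin m → ℂ)) ∈ 𝒟 m := by
    have h1 := h𝒟.iUnion m (fun n => if n = 0 then A else Aᶜ) (by
      intro n
      by_cases hn : n = 0
      · simpa [hn] using hA
      · simpa [hn] using hc)
    have h2 : (⋃ n : ℕ, if n = 0 then A else Aᶜ) = (univ : Set (Fin m → ℂ)) := by
      rw [eq_univ_iff_forall]
      intro s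
      by_cases hs : s ∈ A
      · exact mem_iUnion.2 ⟨0, by simpa using hs⟩
      · exact mem_iUnion.2 ⟨1, by simpa using hs⟩
    rwa [h2] at h1
  have he : (∅ : Set (Fin m → ℂ)) ∈ 𝒟 m := by
    have h1 := h𝒟.compl m _ hu
    rwa [compl_univ] at h1
  have key : ∀ s, f s = false ↔ s ∉ A := by
    intro s
    rw [← hf s]
    simp
  by_cases hT : true ∈ B <;> by_cases hF : false ∈ B
  · have : {s | f s ∈ B} = univ := by
      rw [eq_univ_iff_forall]
      intro s
      show f s ∈ B
      cases f s
      · exact hF
      · exact hT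
    rw [this]
    exact hu
  · have : {s | f s ∈ B} = A := by
      ext s
      show f s ∈ B ↔ s ∈ A
      rw [← hf s]
      cases f s
      · exact ⟨fun h => absurd h hF, fun h => absurd h (by simp)⟩
      · exact ⟨fun _ => rfl, fun _ => hT⟩
    rw [this]
    exact hA
  · have : {s | f s ∈ B} = Aᶜ := by
      ext s
      show f s ∈ B ↔ s ∉ A
      rw [← key s]
      cases f s
      · exact ⟨fun _ => rfl, fun _ => hF⟩
      · exact ⟨fun h => absurd h hT, fun h => absurd h (by simp)⟩
    rw [this]
    exact hc
  · have : {s | f s ∈ B} = ∅ := by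
      rw [eq_empty_iff_forall_notMem]
      intro s hs
      have hs' : f s ∈ B := hs
      revert hs'
      cases f s
      · exact hF
      · exact hT
    rw [this]
    exact he

/-- The category quantifiers preserve closed families. -/
theorem category {𝒟 : (m : ℕ) → Set (Set (Fin m → ℂ))} (h𝒟 : ClosedNQ 𝒟) (m : ℕ) (Y : Type)
    [TopologicalSpace Y] [PolishSpace Y] [MeasurableSpace Y] [BorelSpace Y]
    (X : Set ((Fin m → ℂ) × Y)) (O : Set Y) (hX : MeasurableSet X) (hO : MeasurableSet O)
    (h : ∀ y, {s | (s, y) ∈ X} ∈ 𝒟 m) :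
    {s | ¬ IsMeagre ({y | (s, y) ∈ X} ∩ O)} ∈ 𝒟 m := by
  classical
  have hBaire : BaireSpace Y := by
    let := TopologicalSpace.upgradeIsCompletelyMetrizable Y
    infer_instance
  have hN : Narrow {A : Set Y | IsMeagre A} := Run7.h383.CQI.narrow_meagre
  have hset : {s : Fin m → ℂ | (fun y => decide ((s, y) ∈ X)) ∈
      {f : Y → Bool | ¬ IsMeagre ({y | f y = true} ∩ O)}} =
      {s | ¬ IsMeagre ({y | (s, y) ∈ X} ∩ O)} := by
    ext s
    show ¬ IsMeagre ({y | decide ((s, y) ∈ X) = true} ∩ O) ↔ ¬ IsMeagre ({y | (s, y) ∈ X} ∩ O)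
    simp
  have h1 := h𝒟.quantifier m Y Bool {A : Set Y | IsMeagre A} hN
    (fun s y => decide ((s, y) ∈ X))
    (measurable_to_bool (by
      have : (fun p : (Fin m → ℂ) × Y => decide ((p.1, p.2) ∈ X)) ⁻¹' {true} = X := by
        ext p
        simp
      rw [this]
      exact hX))
    (fun y B _ => bool_sections h𝒟 (h y) _ (fun s => by simp) B)
    {f | ¬ IsMeagre ({y | f y = true} ∩ O)} (by
      intro f g hf hfg hg
      apply hf
      have hfg' : IsMeagre {y | f y ≠ g y} := hfg
      refine (hfg'.union hg).mono ?_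
      rintro y ⟨hy, hyO⟩
      have hy' : f y = true := hy
      by_cases hgy : g y = true
      · exact Or.inr ⟨hgy, hyO⟩
      · left
        intro he
        exact hgy (he ▸ hy')) (by
      rw [hset]
      have h2 := Run7.h383.CQI.measurableSet_nonmeagre
        (hX.inter (measurable_snd hO : MeasurableSet (Prod.snd ⁻¹' O)))
      have h3 : {s : Fin m → ℂ | ¬ IsMeagre {y | (s, y) ∈ X ∩ Prod.snd ⁻¹' O}} =
          {s | ¬ IsMeagre ({y | (s, y) ∈ X} ∩ O)} := rfl
      rw [← h3]
      exact h2)
  rw [hset] at h1
  exact h1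

/-- (1) The sets in the least closed family are Borel sets with countable or cocountable traces on
all analytic curves; (2) every set of complex numbers in the least closed family is countable or
cocountable; (3) if the preimages under all functions `φ(·, y)` are in the least closed family then
the set of all `s` such that `φ(s, ·)` has a property which is invariant modulo a narrow σ-ideal has
countable or cocountable traces on all analytic curves, even if it is not a Borel set; (4) the least
closed family is closed under the category quantifiers; (5) narrow σ-ideals are characterized by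
the fact that their quantifiers preserve the property of being countable or cocountable; (6) σ-ideals
with the countable chain condition, the ideals of null sets of s-finite measures, and the ideals of
meagre sets of Polish spaces are narrow. -/
theorem result :
    (∀ (m : ℕ) (X : Set (Fin m → ℂ)), InLeast m X →
      MeasurableSet X ∧ ∀ U : Set ℂ, IsOpen U → IsPreconnected U →
        ∀ γ : ℂ → (Fin m → ℂ), AnalyticOnNhd ℂ γ U →
          {t | t ∈ U ∧ γ t ∈ X}.Countable ∨ {t | t ∈ U ∧ γ t ∉ X}.Countable) ∧
    (∀ X : Set ℂ, InLeast 1 {v : Fin 1 → ℂ | v 0 ∈ X} → X.Countable ∨ Xᶜ.Countable) ∧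
    (∀ (m : ℕ) (Y Z : Type) [MeasurableSpace Y] [StandardBorelSpace Y]
      [MeasurableSpace Z] [MeasurableSpace.CountablySeparated Z] (J : Set (Set Y)), Narrow J →
      ∀ φ : (Fin m → ℂ) → Y → Z, Measurable (fun p : (Fin m → ℂ) × Y => φ p.1 p.2) →
      (∀ (y : Y) (B : Set Z), MeasurableSet B → InLeast m {s | φ s y ∈ B}) →
      ∀ P : Set (Y → Z), (∀ f g : Y → Z, f ∈ P → {y | f y ≠ g y} ∈ J → g ∈ P) →
      ∀ U : Set ℂ, IsOpen U → IsPreconnected U →
        ∀ γ : ℂ → (Fin m → ℂ), AnalyticOnNhd ℂ γ U →
          {t | t ∈ U ∧ φ (γ t) ∈ P}.Countable ∨ {t | t ∈ U ∧ φ (γ t) ∉ P}.Countable) ∧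
    (∀ (m : ℕ) (Y : Type) [TopologicalSpace Y] [PolishSpace Y] [MeasurableSpace Y]
      [BorelSpace Y] (X : Set ((Fin m → ℂ) × Y)) (O : Set Y), MeasurableSet X →
      MeasurableSet O → (∀ y, InLeast m {s | (s, y) ∈ X}) →
      InLeast m {s | ¬ IsMeagre ({y | (s, y) ∈ X} ∩ O)}) ∧
    (∀ (Y : Type) [MeasurableSpace Y] [StandardBorelSpace Y] (J : Set (Set Y)), SigmaIdeal J →
      (Narrow J ↔ ∀ X : Set (ℂ × Y), MeasurableSet X →
        (∀ y, {s | (s, y) ∈ X}.Countable ∨ {s | (s, y) ∉ X}.Countable) →
        {s | {y | (s, y) ∈ X} ∉ J}.Countable ∨ {s | {y | (s, y) ∈ X} ∈ J}.Countable)) ∧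
    (∀ (Y : Type) [MeasurableSpace Y] (J : Set (Set Y)), SigmaIdeal J →
      (∀ 𝒜 : Set (Set Y), (∀ A ∈ 𝒜, MeasurableSet A) → 𝒜.PairwiseDisjoint id →
        {A | A ∈ 𝒜 ∧ A ∉ J}.Countable) → Narrow J) ∧
    (∀ (Y : Type) [MeasurableSpace Y] (μ : Measure Y) [SFinite μ],
      Narrow {A : Set Y | μ A = 0}) ∧
    (∀ (Y : Type) [TopologicalSpace Y] [PolishSpace Y] [MeasurableSpace Y] [BorelSpace Y],
      Narrow {A : Set Y | IsMeagre A}) := by
  refine ⟨?_, ?_, ?_, ?_, ?_, ?_, ?_, ?_⟩
  · intro m X hX
    have h1 : CQ m X ∧ MeasurableSet X := hX _ closed_BC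
    exact ⟨h1.2, h1.1⟩
  · intro X hX
    have h1 : CQ 1 {v : Fin 1 → ℂ | v 0 ∈ X} ∧ MeasurableSet {v : Fin 1 → ℂ | v 0 ∈ X} :=
      hX _ closed_BC
    exact h1.1.qm
  · intro m Y Z _ _ _ _ J hJ φ hφ h P hP
    exact hJ.quant hφ (fun y B hB => (h y B hB _ closed_BC).1) hP
  · intro m Y _ _ _ _ X O hX hO h 𝒟 h𝒟
    exact category h𝒟 m Y X O hX hO fun y => h y 𝒟 h𝒟
  · intro Y _ _ J hJ
    exact Run7.h383.CQI.narrow_iff hJ
  · intro Y _ J hJ h
    exact Run7.h383.CQI.narrow_of_ccc hJ h
  · intro Y _ μ _
    exact Run7.h383.CQI.narrow_null μ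
  · intro Y _ _ _ _
    have hBaire : BaireSpace Y := by
      let := TopologicalSpace.upgradeIsCompletelyMetrizable Y
      infer_instance
    exact Run7.h383.CQI.narrow_meagre

end Pool.Agent.Results.MP_a12702_lc.NarrowIdealQuantifiers
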